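import Mathlib

/-! Vector balancing constants into the sup norm of `ℝ^m`. -/

open scoped ENNReal Matrix

namespace Pool.Agent.MP_122bd4_an

/-- The vector balancing constant from the set `S` into the sup norm: the supremum, over all finite
families `v` of vectors of `S`, of the least sup norm of a signed sum. -/
noncomputable def alpha {m : ℕ} (S : Set (Fin m → ℝ)) : ℝ≥0∞ :=
  ⨆ (n : ℕ) (v : Fin n → Fin m → ℝ) (_ : ∀ l, v l ∈ S),
    ⨅ (ε : Fin n → ℝ) (_ : ∀ l, ε l = 1 ∨ ε l = -1), ENNReal.ofReal ‖∑ l, ε l • v l‖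

/-- The step vector with coordinates `0` before `i` and `1` from `i` on. -/
def step {m : ℕ} (i : Fin m) : Fin m → ℝ := fun j => if i ≤ j then 1 else 0

/-- The bounded variation norm `|v 0| + |v 1 - v 0| + ... + |v (m-1) - v (m-2)|`. -/
def bv {m : ℕ} (v : Fin m → ℝ) : ℝ := ∑ j : Fin m, |v j - Matrix.vecCons 0 v j.castSucc|

/-- The Hilbert norm `√⟨v, A v⟩`. -/
noncomputable def hn {m : ℕ} (A : Matrix (Fin m) (Fin m) ℝ) (v : Fin m → ℝ) : ℝ :=
  √(v ⬝ᵥ A *ᵥ v)

end Pool.Agent.MP_122bd4_an
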