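import Mathlib

/-! Rounding to signs while keeping few linear constraints, and the grid argument for families of
functions of bounded variation. -/

open Finset Filter Topology

namespace Pool.Agent.MP_122bd4_an

variable {ι J : Type} [Fintype ι]

/-- Keep the constraints in `R` and the coordinates that are already signs; at most `#R`
coordinates stay fractional. -/
theorem round (w : ι → J → ℝ) (R : Finset J) (x : ι → ℝ) (hx : ∀ l, |x l| ≤ 1) :
    ∃ y : ι → ℝ, (∀ l, |y l| ≤ 1) ∧ (∀ l, ¬ |x l| < 1 → y l = x l) ∧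
      (∀ g ∈ R, ∑ l, (y l - x l) * w l g = 0) ∧ #{l | |y l| < 1} ≤ #R := by
  classical
  set K : Set (ι → ℝ) := {y | (∀ l, |y l| ≤ 1) ∧ (∀ l, ¬ |x l| < 1 → y l = x l) ∧
    ∀ g ∈ R, ∑ l, (y l - x l) * w l g = 0} with hK
  have cl : IsClosed K := by
    simp only [hK, Set.setOf_and, Set.setOf_forall]
    refine (isClosed_iInter fun l => isClosed_le (by fun_prop) continuous_const).inter
      ((isClosed_iInter fun l => isClosed_iInter fun _ =>
        isClosed_eq (by fun_prop) continuous_const).inter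
      (isClosed_iInter fun l => isClosed_iInter fun _ =>
        isClosed_eq (by fun_prop) continuous_const))
  have cp : IsCompact K := (isCompact_closedBall (0 : ι → ℝ) 1).of_isClosed_subset cl
    fun y hy => mem_closedBall_zero_iff.2 ((pi_norm_le_iff_of_nonneg zero_le_one).2 hy.1)
  obtain ⟨y, ⟨y1, y2, y3⟩, hy⟩ := cp.exists_isMaxOn ⟨x, hx, fun _ _ => rfl, by simp⟩
    (f := fun y => ∑ l, y l ^ 2) (by fun_prop)
  refine ⟨y, y1, y2, y3, ?_⟩
  by_contra hlt
  have hd : ¬ LinearIndependent ℝ fun (l : {l // |y l| < 1}) (g : R) => w l g := fun h => by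
    have := h.fintype_card_le_finrank
    rw [Module.finrank_fintype_fun_eq_card, Fintype.card_coe, Fintype.card_subtype] at this
    exact hlt this
  obtain ⟨d, d0, l0, dl⟩ := Fintype.not_linearIndependent_iff.1 hd
  set e : ι → ℝ := fun l => if h : |y l| < 1 then d ⟨l, h⟩ else 0 with he
  have e0 : ∀ g ∈ R, ∑ l, e l * w l g = 0 := fun g hg => by
    have := congrFun d0 ⟨g, hg⟩
    simp only [Finset.sum_apply, Pi.smul_apply, smul_eq_mul, Pi.zero_apply] at this
    rw [← this, ← Fintype.sum_subtype_add_sum_subtype (fun l => |y l| < 1)]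
    have z : ∑ l : {l // ¬ |y l| < 1}, e l * w l g = 0 :=
      sum_eq_zero fun l _ => by simp only [he, dif_neg l.2, zero_mul]
    rw [z, add_zero]
    exact sum_congr rfl fun l _ => by simp only [he, dif_pos l.2]
  have ev : ∀ᶠ t in 𝓝 (0 : ℝ), ∀ l, |y l + t * e l| ≤ 1 := by
    refine eventually_all.2 fun l => ?_
    by_cases h : |y l| < 1
    · have c : Continuous fun t : ℝ => |y l + t * e l| := by fun_prop
      exact (c.continuousAt.eventually_lt continuousAt_const (by simpa using h)).mono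
        fun _ => le_of_lt
    · exact Eventually.of_forall fun t => by simpa only [he, dif_neg h, mul_zero, add_zero] using y1 l
  obtain ⟨δ, δ0, hδ⟩ := Metric.eventually_nhds_iff.1 ev
  have mem : ∀ t, |t| < δ → ∑ l, (y l + t * e l) ^ 2 ≤ ∑ l, y l ^ 2 := fun t ht => by
    refine hy (a := fun l => y l + t * e l) ⟨hδ (by simpa using ht), fun l hl => ?_, fun g hg => ?_⟩
    · have : ¬ |y l| < 1 := by rwa [y2 l hl]
      simp only [he, dif_neg this, mul_zero, add_zero, y2 l hl]
    · have : ∀ l, (y l + t * e l - x l) * w l g = (y l - x l) * w l g + t * (e l * w l g) :=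
        fun l => by ring
      simp only [this, sum_add_distrib, ← mul_sum, y3 g hg, e0 g hg, mul_zero, add_zero]
  have m1 := mem (δ / 2) (by rw [abs_of_pos (by positivity)]; linarith)
  have m2 := mem (-(δ / 2)) (by rw [abs_neg, abs_of_pos (by positivity)]; linarith)
  have sm : ∑ l, (y l + δ / 2 * e l) ^ 2 + ∑ l, (y l + -(δ / 2) * e l) ^ 2 =
      2 * ∑ l, y l ^ 2 + 2 * (δ / 2) ^ 2 * ∑ l, e l ^ 2 := by
    simp only [← sum_add_distrib, mul_sum]
    exact sum_congr rfl fun l _ => by ring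
  have pos : 0 < ∑ l, e l ^ 2 := sum_pos' (fun l _ => sq_nonneg _)
    ⟨l0, mem_univ _, by simp only [he, dif_pos l0.2]; positivity⟩
  have : 0 < 2 * (δ / 2) ^ 2 * ∑ l, e l ^ 2 := by positivity
  linarith

/-- One stage: the number of fractional coordinates drops by a factor four at cost eight. -/
theorem stage [LinearOrder J] [Nonempty J] (v μ : ι → J → ℝ)
    (h1 : ∀ l j j', j' ≤ j → |v l j - v l j'| ≤ μ l j - μ l j') (h2 : ∀ l j, |v l j| ≤ μ l j)
    (h3 : ∀ l j, μ l j ≤ 1) (x : ι → ℝ) (hx : ∀ l, |x l| ≤ 1) :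
    ∃ y : ι → ℝ, (∀ l, |y l| ≤ 1) ∧ #{l | |y l| < 1} ≤ #{l | |x l| < 1} / 4 ∧
      ∀ j, |∑ l, (y l - x l) * v l j| ≤ 8 := by
  classical
  set A : Finset ι := {l | |x l| < 1} with hA
  set M : J → ℝ := fun j => ∑ l ∈ A, μ l j with hM
  set f : J → ℕ := fun j => ⌊M j / 4⌋₊ with hf
  obtain ⟨y, y1, y2, y3, y4⟩ := round v ((Icc 1 (#A / 4)).image (Function.invFun f)) x hx
  refine ⟨y, y1, y4.trans (card_image_le.trans (by simp)), fun j => ?_⟩
  have key : ∀ p : ι → ℝ, |∑ l, (y l - x l) * p l| ≤ 2 * ∑ l ∈ A, |p l| := fun p => by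
    rw [← sum_subset (subset_univ A) fun l _ hl => by rw [y2 l (by simpa [hA] using hl)]; simp,
      mul_sum]
    refine (abs_sum_le_sum_abs _ _).trans (sum_le_sum fun l _ => ?_)
    rw [abs_mul]
    exact mul_le_mul_of_nonneg_right ((abs_sub _ _).trans (by linarith [y1 l, hx l])) (abs_nonneg _)
  have M0 : ∀ j, 0 ≤ M j := fun j => sum_nonneg fun l _ => (abs_nonneg _).trans (h2 l j)
  have lo : ∀ j, (f j : ℝ) ≤ M j / 4 := fun j => Nat.floor_le (by have := M0 j; positivity)
  have hi : ∀ j, M j / 4 < f j + 1 := fun j => Nat.lt_floor_add_one _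
  rcases Nat.eq_zero_or_pos (f j) with h | h
  · have a := hi j
    have b : ∑ l ∈ A, |v l j| ≤ M j := sum_le_sum fun l _ => h2 l j
    rw [h] at a
    push_cast at a
    linarith [key fun l => v l j]
  · have hN : f j ≤ #A / 4 := by
      have : M j ≤ #A := (sum_le_card_nsmul _ _ 1 fun l _ => h3 l j).trans (by simp)
      have h4 : (f j : ℝ) * 4 ≤ #A := by linarith [lo j]
      exact (Nat.le_div_iff_mul_le (by norm_num)).2 (by exact_mod_cast h4)
    set g := Function.invFun f (f j) with hg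
    have fg : f g = f j := Function.invFun_eq ⟨j, rfl⟩
    have z := y3 g (mem_image_of_mem _ (mem_Icc.2 ⟨h, hN⟩))
    have e : ∑ l, (y l - x l) * v l j = ∑ l, (y l - x l) * (v l j - v l g) := by
      simp only [mul_sub (_ - _), sum_sub_distrib, z, sub_zero]
    have a1 := lo j
    have a2 := hi j
    have a3 := lo g
    have a4 := hi g
    rw [fg] at a3 a4
    have b : ∑ l ∈ A, |v l j - v l g| ≤ 4 := by
      rcases le_total g j with o | o
      · have : ∑ l ∈ A, |v l j - v l g| ≤ M j - M g := by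
          rw [← sum_sub_distrib]; exact sum_le_sum fun l _ => h1 l j g o
        linarith
      · have : ∑ l ∈ A, |v l j - v l g| ≤ M g - M j := by
          rw [← sum_sub_distrib]
          exact sum_le_sum fun l _ => (abs_sub_comm _ _).trans_le (h1 l g j o)
        linarith
    rw [e]
    linarith [key fun l => v l j - v l g]

theorem stages [LinearOrder J] [Nonempty J] (v μ : ι → J → ℝ)
    (h1 : ∀ l j j', j' ≤ j → |v l j - v l j'| ≤ μ l j - μ l j') (h2 : ∀ l j, |v l j| ≤ μ l j)
    (h3 : ∀ l j, μ l j ≤ 1) (k : ℕ) : ∀ x : ι → ℝ, (∀ l, |x l| ≤ 1) → #{l | |x l| < 1} < 4 ^ k →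
      ∃ ε : ι → ℝ, (∀ l, ε l = 1 ∨ ε l = -1) ∧ ∀ j, |∑ l, (ε l - x l) * v l j| ≤ 8 * k := by
  induction k with
  | zero =>
    intro x hx hc
    refine ⟨x, fun l => (abs_eq zero_le_one).1 ((hx l).eq_of_not_lt fun h => ?_), by simp⟩
    have : #{l | |x l| < 1} ≠ 0 := card_ne_zero_of_mem (a := l) (by simpa using h)
    omega
  | succ k ih =>
    intro x hx hc
    obtain ⟨y, y1, y2, y3⟩ := stage v μ h1 h2 h3 x hx
    obtain ⟨ε, e1, e2⟩ := ih y y1 (by omega)
    refine ⟨ε, e1, fun j => ?_⟩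
    have : ∑ l, (ε l - x l) * v l j = ∑ l, (ε l - y l) * v l j + ∑ l, (y l - x l) * v l j := by
      rw [← sum_add_distrib]; exact sum_congr rfl fun l _ => by ring
    rw [this]
    push_cast
    linarith [abs_add_le (∑ l, (ε l - y l) * v l j) (∑ l, (y l - x l) * v l j), e2 j, y3 j]

/-- Signs for a family of functions of variation at most one on a chain with `< 4 ^ k` points. -/
theorem signs [LinearOrder J] [Nonempty J] [Fintype J] (v μ : ι → J → ℝ)
    (h1 : ∀ l j j', j' ≤ j → |v l j - v l j'| ≤ μ l j - μ l j') (h2 : ∀ l j, |v l j| ≤ μ l j)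
    (h3 : ∀ l j, μ l j ≤ 1) (k : ℕ) (hk : Fintype.card J < 4 ^ k) :
    ∃ ε : ι → ℝ, (∀ l, ε l = 1 ∨ ε l = -1) ∧ ∀ j, |∑ l, ε l * v l j| ≤ 8 * k := by
  obtain ⟨y, y1, -, y3, y4⟩ := round v univ 0 (by simp)
  obtain ⟨ε, e1, e2⟩ := stages v μ h1 h2 h3 k y y1 (y4.trans_lt hk)
  refine ⟨ε, e1, fun j => ?_⟩
  have := y3 j (mem_univ _)
  simp only [Pi.zero_apply, sub_zero] at this
  simpa only [sub_mul, sum_sub_distrib, this, sub_zero] using e2 j

end Pool.Agent.MP_122bd4_an
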