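import Mathlib

/-! The tree lemma: vectors whose images are step vectors force a large balancing constant. -/

open Finset
open scoped RealInnerProductSpace

namespace Pool.Agent.MP_122bd4_an

variable {E : Type} [NormedAddCommGroup E] [InnerProductSpace ℝ E]

/-- A finite family of vectors of norm at most one, invisible in the rows outside `[lo, hi)`, all
of whose signed sums are at least `x` in some row of `[lo, hi)`. -/
def Game (φ : ℕ → E →L[ℝ] ℝ) (lo hi : ℕ) (x : ℝ) : Prop :=
  ∃ (ι : Type) (_ : Fintype ι) (u : ι → E), (∀ l, ‖u l‖ ≤ 1) ∧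
    (∀ l j, j < lo ∨ hi ≤ j → φ j (u l) = 0) ∧
    ∀ ε : ι → ℝ, (∀ l, ε l = 1 ∨ ε l = -1) →
      ∃ j, lo ≤ j ∧ j < hi ∧ x ≤ ∑ l, ε l * φ j (u l)

theorem Game.mono {φ : ℕ → E →L[ℝ] ℝ} {lo hi lo' hi' : ℕ} {x x' : ℝ} (h : Game φ lo hi x)
    (h1 : lo' ≤ lo) (h2 : hi ≤ hi') (h3 : x' ≤ x) : Game φ lo' hi' x' := by
  obtain ⟨ι, _, u, hu, hs, hg⟩ := h
  refine ⟨ι, inferInstance, u, hu, fun l j hj => hs l j (by omega), fun ε hε => ?_⟩
  obtain ⟨j, a, b, c⟩ := hg ε hε
  exact ⟨j, by omega, by omega, h3.trans c⟩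

theorem Game.join {φ : ℕ → E →L[ℝ] ℝ} {lo hi a b a' b' : ℕ} {x y : ℝ} {z : E}
    (h : Game φ a b x) (h' : Game φ a' b' x) (o1 : lo ≤ a) (o2 : b ≤ a') (o3 : b' ≤ hi)
    (o4 : a ≤ b) (o5 : a' ≤ b')
    (hz : ‖z‖ ≤ 1) (z0 : ∀ j, j < lo ∨ hi ≤ j → φ j z = 0)
    (z1 : ∀ j, a ≤ j → j < b → φ j z = y) (z2 : ∀ j, a' ≤ j → j < b' → φ j z = -y) :
    Game φ lo hi (x + y) := by
  obtain ⟨ι, _, u, hu, hs, hg⟩ := h
  obtain ⟨ι', _, u', hu', hs', hg'⟩ := h'
  refine ⟨Option (ι ⊕ ι'), inferInstance, fun l => l.elim z (Sum.elim u u'), ?_, ?_, ?_⟩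
  · rintro (_ | l | l)
    exacts [hz, hu l, hu' l]
  · rintro (_ | l | l) j hj
    exacts [z0 j hj, hs l j (by omega), hs' l j (by omega)]
  · intro ε hε
    rcases hε none with e | e
    · obtain ⟨j, c1, c2, c3⟩ := hg (fun l => ε (some (.inl l))) fun l => hε _
      refine ⟨j, by omega, by omega, ?_⟩
      have : ∑ l, ε (some (.inr l)) * φ j (u' l) = 0 :=
        sum_eq_zero fun l _ => by rw [hs' l j (by omega), mul_zero]
      simp only [Fintype.sum_option, Fintype.sum_sum_type, Option.elim, Sum.elim_inl, Sum.elim_inr,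
        e, z1 j c1 c2, this]
      linarith
    · obtain ⟨j, c1, c2, c3⟩ := hg' (fun l => ε (some (.inr l))) fun l => hε _
      refine ⟨j, by omega, by omega, ?_⟩
      have : ∑ l, ε (some (.inl l)) * φ j (u l) = 0 :=
        sum_eq_zero fun l _ => by rw [hs l j (by omega), mul_zero]
      simp only [Fintype.sum_option, Fintype.sum_sum_type, Option.elim, Sum.elim_inl, Sum.elim_inr,
        e, z2 j c1 c2, this]
      linarith

/-- The nearest point to `c` among the vectors that look like a step located in `[s, t)`. -/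
theorem exists_near [CompleteSpace E] (φ : ℕ → E →L[ℝ] ℝ) (b : ℕ → E) (c : E) {s t : ℕ}
    (hst : s < t) (hb : ∀ i, s ≤ i → i < t → ∀ j, φ j (b i) = if i ≤ j then 1 else 0) :
    ∃ q : E, (∀ j, j < s → φ j q = 0) ∧ (∀ j, t ≤ j → φ j q = 1) ∧
      ∀ i, s ≤ i → i < t → ‖b i - q‖ ^ 2 + ‖q - c‖ ^ 2 ≤ ‖b i - c‖ ^ 2 := by
  set F : Set E := {q | (∀ j, j < s → φ j q = 0) ∧ ∀ j, t ≤ j → φ j q = 1} with hF
  have mem : ∀ i, s ≤ i → i < t → b i ∈ F := fun i h1 h2 =>
    ⟨fun j hj => by rw [hb i h1 h2, if_neg (by omega)],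
      fun j hj => by rw [hb i h1 h2, if_pos (by omega)]⟩
  have cl : IsClosed F := by
    simp only [hF, Set.setOf_and, Set.setOf_forall]
    exact (isClosed_iInter fun j => isClosed_iInter fun _ =>
      isClosed_eq (φ j).continuous continuous_const).inter
      (isClosed_iInter fun j => isClosed_iInter fun _ =>
        isClosed_eq (φ j).continuous continuous_const)
  have cv : Convex ℝ F := by
    rintro p ⟨p1, p2⟩ q ⟨q1, q2⟩ α β - - h
    refine ⟨fun j hj => ?_, fun j hj => ?_⟩
    · simp [p1 j hj, q1 j hj]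
    · simp [p2 j hj, q2 j hj, h]
  obtain ⟨q, hq, e⟩ := exists_norm_eq_iInf_of_complete_convex ⟨_, mem s le_rfl hst⟩
    cl.isComplete cv c
  refine ⟨q, hq.1, hq.2, fun i h1 h2 => ?_⟩
  have h3 := (norm_eq_iInf_iff_real_inner_le_zero cv hq).1 e _ (mem i h1 h2)
  have h4 := norm_sub_sq_real (b i - q) (c - q)
  rw [sub_sub_sub_cancel_right, real_inner_comm] at h4
  rw [norm_sub_rev q c]
  linarith

theorem tree [CompleteSpace E] (φ : ℕ → E →L[ℝ] ℝ) (b : ℕ → E) (D : ℕ) :
    ∀ (a : ℕ) (c : E) (r : ℝ), 0 < r →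
      (∀ i, a ≤ i → i < a + 5 ^ D → ∀ j, φ j (b i) = if i ≤ j then 1 else 0) →
      (∀ i, a ≤ i → i < a + 5 ^ D → ‖b i - c‖ ≤ r) →
      Game φ a (a + 5 ^ D) (D * √D / (24 * r)) := by
  induction D with
  | zero =>
    intro a c r _ _ _
    exact ⟨Empty, inferInstance, Empty.elim, fun l => l.elim, fun l => l.elim,
      fun _ _ => ⟨a, le_rfl, by simp, by simp⟩⟩
  | succ D ih =>
    intro a c r hr hb hc
    have hL : 0 < 5 ^ D := by positivity
    have e5 : 5 ^ (D + 1) = 5 * 5 ^ D := by ring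
    obtain ⟨L, hLd⟩ : ∃ L, 5 ^ D = L := ⟨_, rfl⟩
    rw [e5] at hb hc ⊢
    rw [hLd] at hb hc ih hL ⊢
    have hq : ∀ k : Fin 5, ∃ q : E, (∀ j, j < a + k * L → φ j q = 0) ∧
        (∀ j, a + k * L + L ≤ j → φ j q = 1) ∧
        ∀ i, a + k * L ≤ i → i < a + k * L + L → ‖b i - q‖ ^ 2 + ‖q - c‖ ^ 2 ≤ r ^ 2 := by
      intro k
      have hk : k * L + L ≤ 5 * L := by have := k.2; nlinarith
      obtain ⟨q, q0, q1, q2⟩ := exists_near φ b c (s := a + k * L) (t := a + k * L + L)
        (by omega) fun i h1 h2 => hb i (by omega) (by omega)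
      exact ⟨q, q0, q1, fun i h1 h2 => (q2 i h1 h2).trans
        (pow_le_pow_left₀ (norm_nonneg _) (hc i (by omega) (by omega)) 2)⟩
    choose q q0 q1 q2 using hq
    set s := √((D + 1 : ℕ) : ℝ) with hs
    set t := √(D : ℝ) with ht
    have s2 : s ^ 2 = D + 1 := by rw [hs, Real.sq_sqrt (by positivity)]; push_cast; ring
    have t2 : t ^ 2 = D := Real.sq_sqrt (by positivity)
    have s0 : 0 < s := Real.sqrt_pos.2 (by positivity)
    have t0 : 0 ≤ t := Real.sqrt_nonneg _
    have D0 : (0 : ℝ) ≤ D := by positivity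
    have eD : ((D + 1 : ℕ) : ℝ) = s ^ 2 := by rw [s2]; push_cast; ring
    rw [eD]
    by_cases hfar : ∃ k, 3 * r ^ 2 < s ^ 2 * ‖q k - c‖ ^ 2
    · obtain ⟨k, hk⟩ := hfar
      have hk5 : k * L + L ≤ 5 * L := by have := k.2; nlinarith
      have h1 := q2 k (a + k * L) le_rfl (by omega)
      have h3 : 3 < s ^ 2 := by
        by_contra h
        have : s ^ 2 * ‖q k - c‖ ^ 2 ≤ 3 * r ^ 2 :=
          mul_le_mul (not_lt.1 h) (by nlinarith [sq_nonneg ‖b (a + k * L) - q k‖]) (by positivity)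
            (by norm_num)
        linarith
      set w := √(1 - 3 / s ^ 2) with hw
      have hp : 0 < 1 - 3 / s ^ 2 := by rw [sub_pos, div_lt_one (by positivity)]; exact h3
      have w0 : 0 < w := Real.sqrt_pos.2 hp
      have w2 : s ^ 2 * w ^ 2 = s ^ 2 - 3 := by rw [hw, Real.sq_sqrt hp.le]; field_simp
      refine (ih (a + k * L) (q k) (r * w) (by positivity)
        (fun i h1 h2 => hb i (by omega) (by omega)) fun i h1 h2 => ?_).mono (by omega) (by omega) ?_
      · refine le_of_pow_le_pow_left₀ two_ne_zero (by positivity) ?_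
        have h4 := q2 k i h1 h2
        have : s ^ 2 * ‖b i - q k‖ ^ 2 ≤ s ^ 2 * (r * w) ^ 2 := by
          rw [mul_pow r, mul_left_comm, w2]
          nlinarith
        exact le_of_mul_le_mul_left this (by positivity)
      · rw [div_le_div_iff₀ (by positivity) (by positivity), ← t2]
        have : s ^ 2 * s * w ≤ t ^ 2 * t := by
          refine le_of_pow_le_pow_left₀ two_ne_zero (by positivity) ?_
          have e1 : (s ^ 2 * s * w) ^ 2 = (s ^ 2) ^ 2 * (s ^ 2 * w ^ 2) := by ring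
          have e2 : (t ^ 2 * t) ^ 2 = (t ^ 2) ^ 3 := by ring
          rw [e1, e2, w2, s2, t2]
          nlinarith
        nlinarith
    · push Not at hfar
      have hn : ∀ k, s * ‖q k - c‖ ≤ 2 * r := fun k =>
        le_of_pow_le_pow_left₀ two_ne_zero (by positivity) (by have := hfar k; nlinarith)
      have g : ∀ k : Fin 5, Game φ (a + k * L) (a + k * L + L) (D * t / (24 * r)) := fun k => by
        have hk5 : k * L + L ≤ 5 * L := by have := k.2; nlinarith
        exact ih _ c r hr (fun i h1 h2 => hb i (by omega) (by omega))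
          fun i h1 h2 => hc i (by omega) (by omega)
      have g1 := g 1
      have g3 := g 3
      have a0 := q0 0
      have a2 := q0 2
      have a4 := q0 4
      have b0 := q1 0
      have b2 := q1 2
      have b4 := q1 4
      simp only [Fin.val_zero, Fin.val_one, Fin.val_two, show ((3 : Fin 5) : ℕ) = 3 from rfl,
        show ((4 : Fin 5) : ℕ) = 4 from rfl] at g1 g3 a0 a2 a4 b0 b2 b4
      refine (g1.join (lo := a) (hi := a + 5 * L) (y := s / (8 * r))
        (z := (s / (8 * r)) • (q 0 - (2 : ℝ) • q 2 + q 4)) g3 (by omega) (by omega) (by omega)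
        (by omega) (by omega) ?_ ?_ ?_ ?_).mono le_rfl le_rfl ?_
      · have e : q 0 - (2 : ℝ) • q 2 + q 4 = (q 0 - c) - (2 : ℝ) • (q 2 - c) + (q 4 - c) := by
          module
        have h1 := norm_add_le ((q 0 - c) - (2 : ℝ) • (q 2 - c)) (q 4 - c)
        have h2 := norm_sub_le (q 0 - c) ((2 : ℝ) • (q 2 - c))
        rw [norm_smul, Real.norm_two] at h2
        rw [norm_smul, Real.norm_of_nonneg (by positivity), e, div_mul_eq_mul_div,
          div_le_one (by positivity)]
        nlinarith [hn 0, hn 2, hn 4]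
      · rintro j (hj | hj)
        · simp [a0 j (by omega), a2 j (by omega), a4 j (by omega)]
        · simp [b0 j (by omega), b2 j (by omega), b4 j (by omega)]
          norm_num
      · intro j h1 h2
        simp [b0 j (by omega), a2 j (by omega), a4 j (by omega)]
      · intro j h1 h2
        simp [b0 j (by omega), b2 j (by omega), a4 j (by omega)]
        ring
      · have hts : t ≤ s := le_of_pow_le_pow_left₀ two_ne_zero s0.le (by linarith)
        have h1 : (s - t) * s ≤ 1 := by nlinarith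
        have h2 : s ^ 2 * s ≤ t ^ 2 * t + 3 * s := by
          have : s ^ 2 * s - t ^ 2 * t ≤ (s - t) * (3 * s ^ 2) := by
            have : s ^ 2 * s - t ^ 2 * t = (s - t) * (s ^ 2 + s * t + t ^ 2) := by ring
            rw [this]
            exact mul_le_mul_of_nonneg_left (by nlinarith) (by linarith)
          nlinarith
        rw [← t2, show s / (8 * r) = 3 * s / (24 * r) by field_simp; ring, ← add_div]
        gcongr

end Pool.Agent.MP_122bd4_an
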