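import Pool.Agent.MP_122bd4_an.Defs
import Pool.Agent.MP_122bd4_an.Tree
import Pool.Agent.MP_122bd4_an.Round

/-! The two bounds: bounded variation ball from above, ellipsoids around the steps from below. -/

open Finset
open scoped ENNReal Matrix MatrixOrder

namespace Pool.Agent.MP_122bd4_an

variable {m : ℕ}

theorem le_alpha {S : Set (Fin m → ℝ)} {ι : Type} [Fintype ι] (v : ι → Fin m → ℝ)
    (hv : ∀ l, v l ∈ S) {x : ℝ}
    (h : ∀ ε : ι → ℝ, (∀ l, ε l = 1 ∨ ε l = -1) → x ≤ ‖∑ l, ε l • v l‖) :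
    ENNReal.ofReal x ≤ alpha S := by
  set e := Fintype.equivFin ι
  refine le_iSup_of_le _ (le_iSup₂_of_le (fun l => v (e.symm l)) (fun l => hv _)
    (le_iInf₂ fun ε hε => ENNReal.ofReal_le_ofReal ?_))
  rw [← e.sum_comp]
  simpa only [Equiv.symm_apply_apply] using h (fun l => ε (e l)) fun l => hε _

theorem alpha_le {S : Set (Fin m → ℝ)} {x : ℝ} (hx : 0 ≤ x)
    (h : ∀ (n : ℕ) (v : Fin n → Fin m → ℝ), (∀ l, v l ∈ S) →
      ∃ ε : Fin n → ℝ, (∀ l, ε l = 1 ∨ ε l = -1) ∧ ∀ j, |∑ l, ε l * v l j| ≤ x) :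
    alpha S ≤ ENNReal.ofReal x := by
  refine iSup_le fun n => iSup₂_le fun v hv => ?_
  obtain ⟨ε, e1, e2⟩ := h n v hv
  refine iInf₂_le_of_le ε e1 (ENNReal.ofReal_le_ofReal ((pi_norm_le_iff_of_nonneg hx).2 fun j => ?_))
  simpa only [Finset.sum_apply, Pi.smul_apply, smul_eq_mul, Real.norm_eq_abs] using e2 j

theorem telescope (v : Fin (m + 1) → ℝ) (j : Fin (m + 1)) :
    v j = ∑ i ∈ Iic j, (v i - Matrix.vecCons 0 v i.castSucc) := by
  induction j using Fin.induction with
  | zero =>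
    have : Iic (0 : Fin (m + 1)) = {0} := by ext; simp
    simp [this]
  | succ j ih =>
    have : Iic j.succ = insert j.succ (Iic j.castSucc) := by
      ext i
      simp only [mem_Iic, mem_insert, Fin.le_def, Fin.ext_iff, Fin.val_succ, Fin.val_castSucc]
      omega
    rw [this, sum_insert (by simp [Fin.le_def]), ← ih, ← Fin.succ_castSucc, Matrix.cons_val_succ]
    ring

theorem alpha_bv (hm : 2 ≤ m) :
    alpha {v : Fin m → ℝ | bv v ≤ 1} ≤ ENNReal.ofReal (24 * Real.log m) := by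
  have l2 : 1 / 2 ≤ Real.log 2 := by linarith [Real.log_two_gt_d9]
  have lm : Real.log 2 ≤ Real.log m := Real.log_le_log two_pos (by exact_mod_cast hm)
  have hk : (Nat.log 4 m : ℝ) ≤ Real.log m := by
    have h : ((4 : ℝ)) ^ Nat.log 4 m ≤ m := by exact_mod_cast Nat.pow_log_le_self 4 (by omega)
    have := Real.log_le_log (by positivity) h
    rw [Real.log_pow, show (4 : ℝ) = 2 ^ 2 by norm_num, Real.log_pow] at this
    push_cast at this
    nlinarith [(Nat.log 4 m).cast_nonneg (α := ℝ)]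
  refine alpha_le (by linarith) fun n v hv => ?_
  obtain ⟨m, rfl⟩ : ∃ k, m = k + 1 := ⟨m - 1, by omega⟩
  obtain ⟨ε, e1, e2⟩ := signs v
    (fun l j => ∑ i ∈ Iic j, |v l i - Matrix.vecCons 0 (v l) i.castSucc|)
    (fun l j j' h => by
      have s : Iic j' ⊆ Iic j := Iic_subset_Iic.2 h
      rw [telescope (v l) j, telescope (v l) j', ← sum_sdiff_eq_sub s, ← sum_sdiff_eq_sub s]
      exact abs_sum_le_sum_abs _ _)
    (fun l j => by rw [telescope (v l) j]; exact abs_sum_le_sum_abs _ _)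
    (fun l j => (sum_le_sum_of_subset_of_nonneg (subset_univ _) fun _ _ _ => abs_nonneg _).trans
      (hv l))
    (Nat.log 4 (m + 1) + 1) (by simpa using Nat.lt_pow_succ_log_self (by norm_num) _)
  refine ⟨ε, e1, fun j => (e2 j).trans ?_⟩
  rw [Nat.cast_add (Nat.log 4 _), Nat.cast_one]
  linarith

theorem bv_step (i : Fin m) : bv (step i) = 1 := by
  obtain ⟨m, rfl⟩ : ∃ k, m = k + 1 := ⟨m - 1, by have := i.2; omega⟩
  have : ∀ j : Fin (m + 1), |step i j - Matrix.vecCons 0 (step i) j.castSucc| =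
      if j = i then 1 else 0 := fun j => by
    induction j using Fin.cases with
    | zero =>
      by_cases h : 0 = i
      · simp [step, ← h]
      · simp [step, h, Ne.symm h]
    | succ j =>
      rw [← Fin.succ_castSucc, Matrix.cons_val_succ]
      simp only [step, Fin.le_def, Fin.ext_iff, Fin.val_succ, Fin.val_castSucc]
      split_ifs <;> first | omega | simp
  simp [bv, this]

theorem alpha_step : alpha (Set.range (step (m := m))) ≤ 1 := by
  classical
  rw [← ENNReal.ofReal_one]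
  refine alpha_le zero_le_one fun n v hv => ?_
  choose i hi using hv
  suffices h : ∀ s : Finset (Fin n), ∃ ε : Fin n → ℝ, (∀ l, ε l = 1 ∨ ε l = -1) ∧
      ∀ j, ∑ l ∈ s, ε l * step (i l) j = 0 ∨ ∑ l ∈ s, ε l * step (i l) j = 1 by
    obtain ⟨ε, e1, e2⟩ := h univ
    refine ⟨ε, e1, fun j => ?_⟩
    simp only [← hi]
    rcases e2 j with h | h <;> simp [h]
  intro s
  induction s using Finset.induction_on_max_value i with
  | empty => exact ⟨fun _ => 1, fun _ => Or.inl rfl, fun _ => Or.inl rfl⟩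
  | insert a s ha hs ih =>
    obtain ⟨ε, e1, e2⟩ := ih
    refine ⟨Function.update ε a (if ∑ l ∈ s, ε l * step (i l) (i a) = 0 then 1 else -1),
      fun l => ?_, fun j => ?_⟩
    · by_cases h : l = a
      · subst h; rw [Function.update_self]; split_ifs <;> simp
      · rw [Function.update_of_ne h]; exact e1 l
    · have up : ∀ y, ∑ l ∈ s, Function.update ε a y l * step (i l) j =
          ∑ l ∈ s, ε l * step (i l) j := fun y =>
        sum_congr rfl fun l hl => by rw [Function.update_of_ne (ne_of_mem_of_not_mem hl ha)]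
      rw [sum_insert ha, Function.update_self, up]
      by_cases h : i a ≤ j
      · have : ∑ l ∈ s, ε l * step (i l) j = ∑ l ∈ s, ε l * step (i l) (i a) :=
          sum_congr rfl fun l hl => by simp only [step, if_pos (hs l hl), if_pos ((hs l hl).trans h)]
        rw [this, show step (i a) j = 1 from if_pos h]
        rcases e2 (i a) with h' | h' <;> simp [h']
      · rw [show step (i a) j = 0 from if_neg h, mul_zero, zero_add]
        exact e2 j

theorem alpha_hn (hm : 2 ≤ m) {A : Matrix (Fin m) (Fin m) ℝ} (hA : A.PosDef)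
    (h : ∀ i, hn A (step i) ≤ 1) :
    ENNReal.ofReal (Real.log m * √(Real.log m) / 192) ≤ alpha {v | hn A v ≤ 1} := by
  have l5 : Real.log 5 ≤ 2 := by
    have := Real.log_le_log (by norm_num) (show (5 : ℝ) ≤ 2 ^ 2 * (5 / 4) by norm_num)
    rw [Real.log_mul (by norm_num) (by norm_num), Real.log_pow] at this
    push_cast at this
    linarith [Real.log_two_lt_d9, Real.log_le_sub_one_of_pos (show (0 : ℝ) < 5 / 4 by norm_num)]
  set D := Nat.log 5 m with hD
  have l0 : 0 ≤ Real.log m := Real.log_natCast_nonneg m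
  have lm : Real.log m ≤ 2 * (D + 1) := by
    have h : (m : ℝ) ≤ 5 ^ (D + 1) := by
      exact_mod_cast (Nat.lt_pow_succ_log_self (by norm_num) m).le
    have := Real.log_le_log (by positivity) h
    rw [Real.log_pow] at this
    push_cast at this
    nlinarith [D.cast_nonneg (α := ℝ)]
  rcases Nat.eq_zero_or_pos D with h0 | h0
  · refine le_alpha (ι := Unit) (fun _ => step ⟨0, by omega⟩) (fun _ => h _) fun ε hε => ?_
    have a : √(Real.log m) ≤ 2 := Real.sqrt_le_iff.2 ⟨by norm_num, by simp [h0] at lm; linarith⟩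
    have b := norm_le_pi_norm (∑ l, ε l • step (m := m) ⟨0, by omega⟩) ⟨0, by omega⟩
    have c : ‖(∑ l, ε l • step (m := m) ⟨0, by omega⟩) ⟨0, by omega⟩‖ = 1 := by
      rcases hε () with e | e <;> simp [step, e]
    simp only [h0, Nat.cast_zero] at lm
    nlinarith [Real.sqrt_nonneg (Real.log m)]
  obtain ⟨B, rfl⟩ : ∃ B : Matrix (Fin m) (Fin m) ℝ, A = Bᴴ * B :=
    CStarAlgebra.nonneg_iff_eq_star_mul_self.1 hA.posSemidef.nonneg
  have hB : IsUnit B.det := by
    have := hA.det_pos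
    rw [Matrix.det_mul] at this
    exact isUnit_iff_ne_zero.2 fun h => by simp [h] at this
  have nrm : ∀ v, hn (Bᴴ * B) v = ‖WithLp.toLp 2 (B *ᵥ v)‖ := fun v => by
    rw [hn, EuclideanSpace.norm_eq, ← Matrix.mulVec_mulVec, Matrix.dotProduct_mulVec,
      Matrix.conjTranspose_eq_transpose_of_trivial, Matrix.vecMul_transpose]
    simp [dotProduct, sq]
  set cl : ℕ → Fin m := fun j => ⟨min j (m - 1), by omega⟩ with hcl
  set φ : ℕ → EuclideanSpace ℝ (Fin m) →L[ℝ] ℝ := fun j => LinearMap.toContinuousLinearMap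
    (LinearMap.proj (cl j) ∘ₗ B⁻¹.mulVecLin ∘ₗ (WithLp.linearEquiv 2 ℝ _).toLinearMap) with hφ
  have φe : ∀ j u, φ j u = (B⁻¹ *ᵥ u.ofLp) (cl j) := fun _ _ => rfl
  have hD5 : 5 ^ D ≤ m := Nat.pow_log_le_self 5 (by omega)
  obtain ⟨ι, _, u, u1, -, u3⟩ := tree φ (fun i => WithLp.toLp 2 (B *ᵥ step (cl i))) D 0 0 1 one_pos
    (fun i _ hi j => by
      rw [φe, Matrix.mulVec_mulVec, Matrix.nonsing_inv_mul _ hB, Matrix.one_mulVec]
      simp only [step, hcl, Fin.le_def]
      split_ifs <;> first | rfl | omega)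
    (fun i _ _ => by rw [sub_zero, ← nrm]; exact h _)
  refine le_alpha (fun l => B⁻¹ *ᵥ (u l).ofLp) (fun l => ?_) fun ε hε => ?_
  · change hn _ _ ≤ 1
    rw [nrm, Matrix.mulVec_mulVec, Matrix.mul_nonsing_inv _ hB, Matrix.one_mulVec]
    exact u1 l
  · obtain ⟨j, -, -, hj⟩ := u3 ε hε
    have b := norm_le_pi_norm (∑ l, ε l • B⁻¹ *ᵥ (u l).ofLp) (cl j)
    simp only [Finset.sum_apply, Pi.smul_apply, smul_eq_mul, ← φe] at b
    refine le_trans ?_ (hj.trans ((le_abs_self _).trans b))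
    have D1 : (1 : ℝ) ≤ D := by exact_mod_cast h0
    have a : √(Real.log m) ≤ 2 * √D := Real.sqrt_le_iff.2 ⟨by positivity, by
      rw [mul_pow, Real.sq_sqrt (by positivity)]; linarith⟩
    have c := mul_le_mul (show Real.log m ≤ 4 * D by linarith) a (Real.sqrt_nonneg _)
      (by positivity)
    linarith

end Pool.Agent.MP_122bd4_an
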